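import Pool.Agent.Lib.MP_aaae3e_pr.Main

/-!
Uniform crossing probability at `p = 1/2` for finite square tilings of bounded degree.
-/

namespace Pool.Agent.Results.MP_aaae3e_pr.BoundedDegree

open Set

/-- For every `Δ` there is `c > 0` such that, for every finite tiling of the unit square by closed
axis-parallel squares `T i` with disjoint interiors in which every tile meets at most `Δ` other
tiles, the proportion of the `2 ^ n` colourings `ω` whose black tiles contain a path from the left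
side to the right side exceeds `c`. -/
theorem result (Δ : ℕ) : ∃ c : ℝ, 0 < c ∧ ∀ (n : ℕ) (T : Fin n → Set (ℝ × ℝ)),
    (∀ i, ∃ x y s : ℝ, 0 < s ∧ T i = Icc x (x + s) ×ˢ Icc y (y + s)) →
    (∀ i j, i ≠ j → Disjoint (interior (T i)) (interior (T j))) →
    ⋃ i, T i = Icc 0 1 ×ˢ Icc 0 1 →
    (∀ i, {j | j ≠ i ∧ (T i ∩ T j).Nonempty}.ncard ≤ Δ) →
    c < ({ω : Fin n → Bool | ∃ p q : ℝ × ℝ, p.1 = 0 ∧ q.1 = 1 ∧
      JoinedIn (⋃ i ∈ {i | ω i = true}, T i) p q}.ncard : ℝ) / 2 ^ n := by
  classical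
  obtain ⟨c, hc, h⟩ := Pool.Agent.Lib.MP_aaae3e_pr.main Δ
  refine ⟨c / 2, by positivity, fun n T hT hd hcov hΔ => ?_⟩
  choose x y s hs hT using hT
  obtain rfl : T = fun i => Icc (x i) (x i + s i) ×ˢ Icc (y i) (y i + s i) := funext hT
  have h1 := h (Fin n) x y s hs hd hcov hΔ
  rw [Fintype.card_fin] at h1
  have hpos : (0 : ℝ) < 2 ^ n := by positivity
  rw [lt_div_iff₀ hpos]
  refine lt_of_lt_of_le (by nlinarith) (h1.trans (Nat.cast_le.2 ?_))
  rw [← Set.ncard_coe_finset]
  refine Set.ncard_le_ncard_of_injOn (fun S i => decide (i ∈ S)) ?_ ?_ (Set.toFinite _)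
  · intro S hS
    simp only [Finset.coe_filter, Finset.mem_univ, true_and, Set.mem_ofPred_eq] at hS
    simpa using hS
  · intro S _ S' _ e
    ext i
    simpa using congrFun e i

end Pool.Agent.Results.MP_aaae3e_pr.BoundedDegree
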